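import Pool.Agent.Run7.h354.BE.Stm

/-!
# Stable objects (piece JH of h354_pieces)
-/

set_option autoImplicit false
set_option linter.unusedSectionVars false
set_option linter.unusedVariables false

open CategoryTheory CategoryTheory.Limits Pretriangulated Triangulated Complex ZeroObject
open Pool.Agent.Helper445_GMF Run7.h354.BE

namespace Run7.h67.BEJH

universe v u

section

variable {C : Type u} [Category.{v} C] [Preadditive C] [HasZeroObject C]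
  [HasShift C ℤ] [∀ n : ℤ, (shiftFunctor C n).Additive] [Pretriangulated C] [IsTriangulated C]
  (σ : PreStab C)

theorem both {φ : ℝ} {X : C} (h₁ : Gen σ.P (Set.Ici φ) X) (h₂ : Gen σ.P (Set.Iic φ) X) :
    σ.P φ X := by
  obtain ⟨a, b, h⟩ := σ.hn X
  rcases σ.HN_nonzero h with h | ⟨a', b', _, _, h⟩
  · exact σ.zero _ _ h
  · have ha : φ ≤ a' := by
      by_contra hc
      rw [not_le] at hc
      obtain ⟨A, hA, f, hf⟩ := σ.HNn_low h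
      refine hf (Gen.hom_zero σ ?_ h₁ (Gen.ss (Set.mem_singleton _) hA) f)
      rintro s₁ hs₁ s' rfl
      exact lt_of_lt_of_le hc hs₁
    have hb : b' ≤ φ := by
      by_contra hc
      rw [not_le] at hc
      obtain ⟨_, A, hA, f, hf⟩ := σ.HNn_top h
      refine hf (Gen.hom_zero σ ?_ (Gen.ss (Set.mem_singleton _) hA) h₂ f)
      rintro s₁ hs₁ s' hs'
      rw [Set.mem_singleton_iff] at hs₁
      rw [hs₁]
      exact lt_of_le_of_lt hs' hc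
    cases h with
    | one hX h0 =>
      have : φ = a' := le_antisymm ha hb
      rw [this]
      exact hX
    | step T hT h₁' h₃ h0 hφ =>
      exfalso
      have := (σ.HNn_top h₁').1
      linarith

theorem top_of_im {φ : ℝ} {A : C} (h : Gen σ.P (Set.Ioc φ (φ + 1)) A)
    (h0 : PreStab.im φ (σ.Z A) = 0) : σ.P (φ + 1) A := by
  obtain ⟨a, b, hA⟩ := σ.hn A
  rcases σ.HN_nonzero hA with hA | ⟨a', b', _, _, hA⟩
  · exact σ.zero _ _ hA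
  · have ha : φ < a' := by
      by_contra hc
      rw [not_lt] at hc
      obtain ⟨B, hB, f, hf⟩ := σ.HNn_low hA
      refine hf (Gen.hom_zero σ ?_ h (Gen.ss (Set.mem_singleton _) hB) f)
      rintro s₁ hs₁ s' rfl
      exact lt_of_le_of_lt hc hs₁.1
    have hb : b' ≤ φ + 1 := by
      by_contra hc
      rw [not_le] at hc
      obtain ⟨_, B, hB, f, hf⟩ := σ.HNn_top hA
      refine hf (Gen.hom_zero σ ?_ (Gen.ss (Set.mem_singleton _) hB) h f)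
      rintro s₁ hs₁ s' hs'
      rw [Set.mem_singleton_iff] at hs₁
      rw [hs₁]
      exact lt_of_le_of_lt hs'.2 hc
    cases hA with
    | one hX hX0 =>
      rcases eq_or_lt_of_le hb with hb | hb
      · rw [← hb]
        exact hX
      · exact absurd ((σ.im_pos (s := φ) (Gen.ss (S := Set.Ioo φ (φ + 1)) ⟨ha, hb⟩ hX)).2 h0) hX0
    | step T hT h₁' h₃ hX0 hφ =>
      exfalso
      have h1 := (σ.HNn_top h₁').1
      have h2' : Gen σ.P (Set.Ioc φ (φ + 1)) T.obj₁ := by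
        refine (σ.HN_gen (σ.HNn_HN h₁')).mono ?_
        rintro x ⟨hx1, hx2⟩
        exact ⟨by linarith, hx2.trans hb⟩
      have h2 := σ.im_nonneg h2'
      have h3 := σ.im_pos (s := φ) (Gen.ss (S := Set.Ioo φ (φ + 1)) ⟨ha, by linarith⟩ h₃)
      rw [σ.add T hT, PreStab.im_add] at h0
      exact hX0 (h3.2 (by linarith [h3.1]))

theorem im_P {φ : ℝ} {X : C} (h : σ.P φ X) : PreStab.im φ (σ.Z X) = 0 := by
  by_cases h0 : IsZero X
  · rw [σ.Z_zero h0, PreStab.im_zero]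
  · obtain ⟨m, _, e⟩ := σ.phase φ X h h0
    rw [e, PreStab.im_exp]
    simp

theorem ker_im {φ : ℝ} {X Y : C} (f : X ⟶ Y) (hX : σ.P φ X) (hY : σ.P φ Y) :
    ∃ (K I Q : C) (a : K ⟶ X) (b : X ⟶ I)
    (c : I ⟶ K⟦(1 : ℤ)⟧) (a' : I ⟶ Y) (b' : Y ⟶ Q) (c' : Q ⟶ I⟦(1 : ℤ)⟧),
    Triangle.mk a b c ∈ distTriang C ∧ Triangle.mk a' b' c' ∈ distTriang C ∧ f = b ≫ a' ∧
    σ.P φ K ∧ σ.P φ I ∧ σ.P φ Q := by
  obtain ⟨W, g, h, hT⟩ := distinguished_cocone_triangle f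
  obtain ⟨A, B, x, y, z, hxy, hA, hB⟩ := σ.exists_tr φ W
  have hX1 : σ.P (φ + 1) (X⟦(1 : ℤ)⟧) := (σ.shift _ _).2 hX
  have hW1 : Gen σ.P (Set.Ici φ) W := .ext _ (rot_of_distTriang _ hT)
    (.ss (Set.mem_Ici.2 le_rfl) hY) (.ss (φ := φ + 1) (Set.mem_Ici.2 (by linarith)) hX1)
  have hW2 : Gen σ.P (Set.Iic (φ + 1)) W := .ext _ (rot_of_distTriang _ hT)
    (.ss (φ := φ) (Set.mem_Iic.2 (by linarith)) hY) (.ss (Set.mem_Iic.2 le_rfl) hX1)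
  have hBP : σ.P φ B := both σ
    (Gen.third σ _ hxy hW1 (hA.mono fun t (ht : φ < t) => (by linarith : φ ≤ t + 1))) hB
  have hA2 : Gen σ.P (Set.Iic (φ + 1)) A :=
    Gen.first σ _ hxy hW2 (hB.mono fun t (ht : t ≤ φ) => (by linarith : t - 1 ≤ φ + 1))
  have hAP : σ.P (φ + 1) A := by
    refine top_of_im σ (σ.gen_inter hA hA2) ?_
    have e1 : σ.Z W = σ.Z A + σ.Z B := σ.add _ hxy
    have e2 : σ.Z Y = σ.Z X + σ.Z W := σ.add _ hT
    have e3 : σ.Z A = σ.Z Y - σ.Z X - σ.Z B := by rw [e2, e1]; ring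
    rw [e3, PreStab.im_sub, PreStab.im_sub, im_P σ hX, im_P σ hY, im_P σ hBP]
    ring
  obtain ⟨I, a', c', hI⟩ := distinguished_cocone_triangle₁ (g ≫ y)
  have hf0 : f ≫ (g ≫ y) = 0 := by
    have e0 : f ≫ g = 0 := comp_distTriang_mor_zero₁₂ _ hT
    rw [← Category.assoc, e0, zero_comp]
  obtain ⟨b, hb⟩ : ∃ b : X ⟶ I, f = b ≫ a' := Triangle.coyoneda_exact₂ _ hI f hf0
  obtain ⟨K, a, c, hK⟩ := distinguished_cocone_triangle₁ b
  have o := someOctahedron hb.symm (rot_of_distTriang _ hK) hI hT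
  have hm : o.m₃ = y := by
    have h1 : g ≫ (o.m₃ - y) = 0 := by
      rw [Preadditive.comp_sub, sub_eq_zero]
      exact o.comm₃
    obtain ⟨k, hk⟩ : ∃ k : X⟦(1 : ℤ)⟧ ⟶ B, o.m₃ - y = h ≫ k := Triangle.yoneda_exact₃ _ hT _ h1
    have hk0 : k = 0 := σ.hom (by linarith : φ < φ + 1) hX1 hBP k
    rw [hk0, comp_zero] at hk
    exact sub_eq_zero.1 hk
  have hm1 := o.mem
  rw [hm] at hm1
  have e := isoTriangleOfIso₁₂ _ _ (rot_of_distTriang _ hm1) (rot_of_distTriang _ hxy)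
    (Iso.refl W) (Iso.refl B) (by show y ≫ 𝟙 _ = 𝟙 _ ≫ y; simp)
  have e3 : (K⟦(1 : ℤ)⟧)⟦(1 : ℤ)⟧ ≅ A⟦(1 : ℤ)⟧ := Triangle.π₃.mapIso e
  have hKP : σ.P φ K := by
    have h1 : σ.P (φ + 1 + 1) ((K⟦(1 : ℤ)⟧)⟦(1 : ℤ)⟧) := σ.iso e3.symm ((σ.shift _ _).2 hAP)
    exact (σ.shift _ _).1 ((σ.shift _ _).1 h1)
  have hIP : σ.P φ I := by
    refine both σ ?_ ?_
    · exact Gen.third σ _ hK (.ss (Set.mem_Ici.2 le_rfl) hX)
        (.ss (φ := φ) (show φ ≤ φ + 1 by linarith) hKP)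
    · exact Gen.first σ _ hI (.ss (Set.mem_Iic.2 le_rfl) hY)
        (.ss (φ := φ) (show φ - 1 ≤ φ by linarith) hBP)
  exact ⟨K, I, B, a, b, c, a', g ≫ y, c', hK, hI, hb, hKP, hIP, hBP⟩

theorem stable_iso {φ : ℝ} {X Y : C} (f : X ⟶ Y) (hX : σ.Stable φ X) (hY : σ.Stable φ Y)
    (hf : f ≠ 0) : IsIso f := by
  obtain ⟨K, I, Q, a, b, c, a', b', c', h1, h2, rfl, hK, hI, hQ⟩ := ker_im σ f hX.1 hY.1
  have hI0 : ¬ IsZero I := fun h => hf (by rw [h.eq_of_tgt b 0, zero_comp])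
  have hK0 : IsZero K := (hX.2.2 K I a b c h1 hK hI).resolve_right hI0
  have hQ0 : IsZero Q := (hY.2.2 I Q a' b' c' h2 hI hQ).resolve_left hI0
  have i1 : IsIso b := (Triangle.distinguished_iff_of_isZero₁ _ hK0).1 h1
  have i2 : IsIso a' := (Triangle.distinguished_iff_of_isZero₃ _ hQ0).1 h2
  infer_instance

theorem ker_stable {φ : ℝ} {X Y : C} (f : X ⟶ Y) (hX : σ.P φ X) (hY : σ.Stable φ Y)
    (hf : f ≠ 0) : ∃ (K : C) (a : K ⟶ X)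
    (c : Y ⟶ K⟦(1 : ℤ)⟧), Triangle.mk a f c ∈ distTriang C ∧ σ.P φ K := by
  obtain ⟨K, I, Q, a, b, c, a', b', c', h1, h2, rfl, hK, hI, hQ⟩ := ker_im σ f hX hY.1
  have hI0 : ¬ IsZero I := fun h => hf (by rw [h.eq_of_tgt b 0, zero_comp])
  have hQ0 : IsZero Q := (hY.2.2 I Q a' b' c' h2 hI hQ).resolve_left hI0
  have i2 : IsIso a' := (Triangle.distinguished_iff_of_isZero₃ _ hQ0).1 h2
  refine ⟨K, a, inv a' ≫ c, ?_, hK⟩
  exact isomorphic_distinguished _ h1 _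
    (Triangle.isoMk _ _ (Iso.refl _) (Iso.refl _) (asIso a').symm
      (by show a ≫ 𝟙 X = 𝟙 K ≫ a; simp)
      (by show (b ≫ a') ≫ inv a' = 𝟙 X ≫ b; simp)
      (by show (inv a' ≫ c) ≫ (𝟙 K)⟦(1 : ℤ)⟧' = inv a' ≫ c; simp))

theorem coker_stable {φ : ℝ} {X Y : C} (f : X ⟶ Y) (hX : σ.Stable φ X) (hY : σ.P φ Y)
    (hf : f ≠ 0) : ∃ (K : C) (a : Y ⟶ K)
    (c : K ⟶ X⟦(1 : ℤ)⟧), Triangle.mk f a c ∈ distTriang C ∧ σ.P φ K := by
  obtain ⟨K, I, Q, a, b, c, a', b', c', h1, h2, rfl, hK, hI, hQ⟩ := ker_im σ f hX.1 hY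
  have hI0 : ¬ IsZero I := fun h => hf (by rw [h.eq_of_tgt b 0, zero_comp])
  have hK0 : IsZero K := (hX.2.2 K I a b c h1 hK hI).resolve_right hI0
  have i1 : IsIso b := (Triangle.distinguished_iff_of_isZero₁ _ hK0).1 h1
  obtain ⟨e, rfl⟩ : ∃ e : X ≅ I, e.hom = b := ⟨asIso b, rfl⟩
  refine ⟨Q, b', c' ≫ (e.inv)⟦(1 : ℤ)⟧', ?_, hQ⟩
  exact isomorphic_distinguished _ h2 _
    (Triangle.isoMk _ _ e (Iso.refl _) (Iso.refl _)
      (by show (e.hom ≫ a') ≫ 𝟙 Y = e.hom ≫ a'; simp)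
      (by show b' ≫ 𝟙 Q = 𝟙 Y ≫ b'; simp)
      (by
        show (c' ≫ (e.inv)⟦(1 : ℤ)⟧') ≫ e.hom⟦(1 : ℤ)⟧' = 𝟙 Q ≫ c'
        rw [Category.assoc, ← Functor.map_comp, e.inv_hom_id, CategoryTheory.Functor.map_id]
        simp))

/-- In a short exact sequence of `P φ` the first map is a monomorphism. -/
theorem mono_P {φ : ℝ} {A X B S : C} {f : A ⟶ X} {g : X ⟶ B} {h : B ⟶ A⟦(1 : ℤ)⟧}
    (hT : Triangle.mk f g h ∈ distTriang C) (hB : σ.P φ B) (hS : σ.P φ S) (k : S ⟶ A)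
    (hk : k ≫ f = 0) : k = 0 := by
  obtain ⟨l, hl⟩ := Triangle.coyoneda_exact₂ _ (inv_rot_of_distTriang _ hT) k hk
  have hB1 : σ.P (φ - 1) (B⟦(-1 : ℤ)⟧) := by
    refine (σ.shift _ _).1 ?_
    rw [sub_add_cancel]
    exact σ.iso (shiftNegShift B (1 : ℤ)).symm hB
  have hl0 : l = 0 := σ.hom (by linarith : φ - 1 < φ) hS hB1 l
  rw [hl, hl0]
  exact zero_comp

/-- In a short exact sequence of `P φ` the second map is an epimorphism. -/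
theorem epi_P {φ : ℝ} {A X B S : C} {f : A ⟶ X} {g : X ⟶ B} {h : B ⟶ A⟦(1 : ℤ)⟧}
    (hT : Triangle.mk f g h ∈ distTriang C) (hA : σ.P φ A) (hS : σ.P φ S) (k : B ⟶ S)
    (hk : g ≫ k = 0) : k = 0 := by
  obtain ⟨l, hl⟩ : ∃ l : A⟦(1 : ℤ)⟧ ⟶ S, k = h ≫ l := Triangle.yoneda_exact₃ _ hT k hk
  have hl0 : l = 0 := σ.hom (by linarith : φ < φ + 1) ((σ.shift _ _).2 hA) hS l
  rw [hl, hl0, comp_zero]

theorem norm_add {φ : ℝ} {A X B : C} {f : A ⟶ X} {g : X ⟶ B} {h : B ⟶ A⟦(1 : ℤ)⟧}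
    (hT : Triangle.mk f g h ∈ distTriang C) (hA : σ.P φ A) (hB : σ.P φ B) :
    ‖σ.Z X‖ = ‖σ.Z A‖ + ‖σ.Z B‖ := by
  have key : ∀ Y : C, σ.P φ Y → ∃ m : ℝ, 0 ≤ m ∧
      σ.Z Y = m * Complex.exp (Complex.I * Real.pi * φ) := by
    intro Y hY
    by_cases h0 : IsZero Y
    · exact ⟨0, le_rfl, by rw [σ.Z_zero h0]; simp⟩
    · obtain ⟨m, hm, e⟩ := σ.phase φ Y hY h0
      exact ⟨m, hm.le, e⟩
  obtain ⟨m, hm, e⟩ := key A hA
  obtain ⟨n, hn, e'⟩ := key B hB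
  have e2 : σ.Z X = σ.Z A + σ.Z B := σ.add _ hT
  rw [e2, e, e', ← add_mul, norm_mul, norm_mul, norm_mul, ← Complex.ofReal_add,
    Complex.norm_of_nonneg hm, Complex.norm_of_nonneg hn, Complex.norm_of_nonneg (by positivity)]
  ring

theorem finite_len (m : ℝ) (hm : 0 < m) (hgap : ∀ φ X, σ.P φ X → ¬ IsZero X → m ≤ ‖σ.Z X‖)
    (φ : ℝ) (n : ℕ) : ∀ X : C, σ.P φ X → ‖σ.Z X‖ ≤ n * m →
    (¬ IsZero X → (∃ (A : C) (f : A ⟶ X), σ.Stable φ A ∧ f ≠ 0) ∧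
      ∃ (B : C) (f : X ⟶ B), σ.Stable φ B ∧ f ≠ 0) ∧
    (∃ l : List C, ∀ A : C, σ.Stable φ A → ((∃ f : A ⟶ X, f ≠ 0) ∨ ∃ f : X ⟶ A, f ≠ 0) →
      ∃ B ∈ l, Nonempty (A ≅ B)) := by
  induction n with
  | zero =>
    intro X hX hn
    have h0 : IsZero X := by
      by_contra h0
      have := hgap φ X hX h0
      norm_num at hn
      rw [hn, norm_zero] at this
      linarith
    refine ⟨fun h => absurd h0 h, [], ?_⟩
    rintro A _ (⟨f, hf⟩ | ⟨f, hf⟩)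
    · exact absurd (h0.eq_of_tgt f 0) hf
    · exact absurd (h0.eq_of_src f 0) hf
  | succ n ih =>
    intro X hX hn
    by_cases h0 : IsZero X
    · refine ⟨fun h => absurd h0 h, [], ?_⟩
      rintro A _ (⟨f, hf⟩ | ⟨f, hf⟩)
      · exact absurd (h0.eq_of_tgt f 0) hf
      · exact absurd (h0.eq_of_src f 0) hf
    by_cases hs : σ.Stable φ X
    · have hid : 𝟙 X ≠ 0 := fun h => h0 ((IsZero.iff_id_eq_zero X).2 h)
      refine ⟨fun _ => ⟨⟨X, 𝟙 X, hs, hid⟩, ⟨X, 𝟙 X, hs, hid⟩⟩, [X], ?_⟩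
      rintro A hA (⟨f, hf⟩ | ⟨f, hf⟩)
      · have := stable_iso σ f hA hs hf
        exact ⟨X, List.mem_singleton_self _, ⟨asIso f⟩⟩
      · have := stable_iso σ f hs hA hf
        exact ⟨X, List.mem_singleton_self _, ⟨(asIso f).symm⟩⟩
    · have hns : ∃ (A B : C) (f : A ⟶ X) (g : X ⟶ B) (h : B ⟶ A⟦(1 : ℤ)⟧),
          Triangle.mk f g h ∈ distTriang C ∧ σ.P φ A ∧ σ.P φ B ∧ ¬ IsZero A ∧ ¬ IsZero B := by
        by_contra hc
        push Not at hc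
        refine hs ⟨hX, h0, fun A B f g h hT hA hB => ?_⟩
        by_contra hAB
        rw [not_or] at hAB
        exact hAB.2 (hc A B f g h hT hA hB hAB.1)
      obtain ⟨A, B, f, g, h, hT, hA, hB, hA0, hB0⟩ := hns
      have e := norm_add σ hT hA hB
      have gA := hgap φ A hA hA0
      have gB := hgap φ B hB hB0
      push_cast at hn
      obtain ⟨hA1, lA, hlA⟩ := ih A hA (by linarith)
      obtain ⟨hB1, lB, hlB⟩ := ih B hB (by linarith)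
      obtain ⟨⟨S, k, hS, hk⟩, _⟩ := hA1 hA0
      obtain ⟨_, ⟨S', k', hS', hk'⟩⟩ := hB1 hB0
      refine ⟨fun _ => ⟨⟨S, k ≫ f, hS, fun h => hk (mono_P σ hT hB hS.1 k h)⟩,
        ⟨S', g ≫ k', hS', fun h => hk' (epi_P σ hT hA hS'.1 k' h)⟩⟩, lA ++ lB, ?_⟩
      rintro D hD (⟨u, hu⟩ | ⟨u, hu⟩)
      · by_cases hug : u ≫ g = 0
        · obtain ⟨w, hw⟩ : ∃ w : D ⟶ A, u = w ≫ f := Triangle.coyoneda_exact₂ _ hT u hug
          have hw0 : w ≠ 0 := fun h => hu (by rw [hw, h, zero_comp])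
          obtain ⟨E, hE, hE'⟩ := hlA D hD (Or.inl ⟨w, hw0⟩)
          exact ⟨E, List.mem_append_left _ hE, hE'⟩
        · obtain ⟨E, hE, hE'⟩ := hlB D hD (Or.inl ⟨_, hug⟩)
          exact ⟨E, List.mem_append_right _ hE, hE'⟩
      · by_cases hfu : f ≫ u = 0
        · obtain ⟨w, hw⟩ : ∃ w : B ⟶ D, u = g ≫ w := Triangle.yoneda_exact₂ _ hT u hfu
          have hw0 : w ≠ 0 := fun h => hu (by rw [hw, h, comp_zero])
          obtain ⟨E, hE, hE'⟩ := hlB D hD (Or.inr ⟨w, hw0⟩)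
          exact ⟨E, List.mem_append_right _ hE, hE'⟩
        · obtain ⟨E, hE, hE'⟩ := hlA D hD (Or.inr ⟨_, hfu⟩)
          exact ⟨E, List.mem_append_left _ hE, hE'⟩

end

theorem p_JH : S_JH.{v, u} := by
  intro C _ _ _ _ _ _ _ _ σ φ
  refine ⟨fun X Y f hX hY => ker_im σ f hX hY, fun X Y f hX hY hf => stable_iso σ f hX hY hf,
    fun X Y f hX hY hf => ker_stable σ f hX hY hf, fun X Y f hX hY hf => coker_stable σ f hX hY hf,
    ?_⟩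
  rintro ⟨m, hm, hgap⟩ X hX
  refine finite_len σ m hm hgap φ ⌈‖σ.Z X‖ / m⌉₊ X hX ?_
  have := Nat.le_ceil (‖σ.Z X‖ / m)
  rwa [div_le_iff₀ hm] at this

end Run7.h67.BEJH
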