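import Mathlib

/-!
# Pushing chains of a filtered complex into a range of degrees

Let `∂ = E - D` be the differential of a complex of graded groups, where `E` raises the degree by
one and `D` preserves it, and let the complexes `(E)` and `(D)` be exact.  Then every chain whose
boundary lives in the degrees `0, …, T + 1` can be changed by a boundary to a chain in the degrees
`0, …, T`.
-/

set_option autoImplicit false

namespace Pool.Agent.Run7.h67.Push

variable {A B C : Type} [AddCommGroup A] [AddCommGroup B] [AddCommGroup C]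

/-- two consecutive steps of a filtered complex -/
structure Two (pA : ℤ → A →+ A) (pB : ℤ → B →+ B) (pC : ℤ → C →+ C) (PA : A → Prop)
    (PB : AddSubgroup B) (EA DA : A →+ B) (EB DB : B →+ C) : Prop where
  idem : ∀ n a, pA n (pA n a) = pA n a
  idemB : ∀ n b, pB n (pB n b) = pB n b
  orth : ∀ m n a, m ≠ n → pA m (pA n a) = 0
  hPA : ∀ a n, PA a → PA (pA n a)
  hPB : ∀ b n, b ∈ PB → pB n b ∈ PB
  hAB : ∀ a, PA a → EA a - DA a ∈ PB
  hDA : ∀ n a, pB n (DA a) = DA (pA n a)
  hEA : ∀ n a, pB (n + 1) (EA a) = EA (pA n a)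
  hDB : ∀ n b, pC n (DB b) = DB (pB n b)
  hEB : ∀ n b, pC (n + 1) (EB b) = EB (pB n b)
  dd : ∀ a, PA a → EB (EA a - DA a) - DB (EA a - DA a) = 0
  exD : ∀ b ∈ PB, DB b = 0 → ∃ a, PA a ∧ DA a = b
  exE : ∀ b ∈ PB, EB b = 0 → ∃ a, PA a ∧ EA a = b

variable {pA : ℤ → A →+ A} {pB : ℤ → B →+ B} {pC : ℤ → C →+ C} {PA : A → Prop}
    {PB : AddSubgroup B} {EA DA : A →+ B} {EB DB : B →+ C}

theorem hEA' (h : Two pA pB pC PA PB EA DA EB DB) (n : ℤ) (a : A) :
    pB n (EA a) = EA (pA (n - 1) a) := by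
  have := h.hEA (n - 1) a
  rwa [sub_add_cancel] at this

theorem hEB' (h : Two pA pB pC PA PB EA DA EB DB) (n : ℤ) (b : B) :
    pC n (EB b) = EB (pB (n - 1) b) := by
  have := h.hEB (n - 1) b
  rwa [sub_add_cancel] at this

/-- pushing up from the bottom -/
theorem low (h : Two pA pB pC PA PB EA DA EB DB) (K : ℤ) (hK : 0 ≤ K) (j : ℕ) :
    ∀ b ∈ PB, (∀ n, n < -(j : ℤ) → pB n b = 0) → (∀ n, K < n → pB n b = 0) →
      (∀ n, n < 0 → pC n (EB b - DB b) = 0) →
      ∃ b' ∈ PB, (∀ n, n < 0 → pB n b' = 0) ∧ (∀ n, K < n → pB n b' = 0) ∧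
        EB b' - DB b' = EB b - DB b := by
  induction j with
  | zero =>
    intro b hb h1 h2 _
    exact ⟨b, hb, fun n hn => h1 n (by simpa using hn), h2, rfl⟩
  | succ j ih =>
    intro b hb h1 h2 h3
    let m : ℤ := -((j : ℤ) + 1)
    have hm : m = -((j : ℤ) + 1) := rfl
    have e1 : pB (m - 1) b = 0 := h1 _ (by push_cast; omega)
    have e2 : DB (pB m b) = 0 := by
      have := h3 m (by omega)
      rw [map_sub, hEB' h, e1, map_zero, zero_sub, neg_eq_zero, h.hDB] at this
      exact this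
    obtain ⟨a, ha, ha2⟩ := h.exD (pB m b) (h.hPB b m hb) e2
    have hga : PA (pA m a) := h.hPA a m ha
    have hD : ∀ n, pB n (DA (pA m a)) = if n = m then pB m b else 0 := by
      intro n
      split_ifs with hn
      · rw [hn, h.hDA, h.idem, ← h.hDA, ha2, h.idemB]
      · rw [h.hDA, h.orth n m a hn, map_zero]
    have hE : ∀ n, n ≠ m + 1 → pB n (EA (pA m a)) = 0 := by
      intro n hn
      rw [hEA' h, h.orth (n - 1) m a (by omega), map_zero]
    obtain ⟨b', hb', g1, g2, g3⟩ := ih (b + (EA (pA m a) - DA (pA m a)))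
      (PB.add_mem hb (h.hAB _ hga))
      (by
        intro n hn
        rw [map_add, map_sub, hE n (by omega), hD n, zero_sub]
        split_ifs with hnm
        · rw [hnm, add_neg_cancel]
        · rw [neg_zero, add_zero]
          exact h1 n (by push_cast; omega))
      (by
        intro n hn
        rw [map_add, map_sub, hE n (by omega), hD n, if_neg (by omega), sub_zero, add_zero]
        exact h2 n hn)
      (by
        intro n hn
        have : EB (b + (EA (pA m a) - DA (pA m a))) - DB (b + (EA (pA m a) - DA (pA m a))) =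
            EB b - DB b := by
          have h6 := h.dd _ hga
          rw [map_add, map_add, add_sub_add_comm, h6, add_zero]
        rw [this]
        exact h3 n hn)
    refine ⟨b', hb', g1, g2, ?_⟩
    rw [g3]
    have h6 := h.dd _ hga
    rw [map_add, map_add, add_sub_add_comm, h6, add_zero]

/-- pushing down from the top -/
theorem up (h : Two pA pB pC PA PB EA DA EB DB) (T : ℤ) (hT : 0 ≤ T) (j : ℕ) :
    ∀ b ∈ PB, (∀ n, n < 0 → pB n b = 0) → (∀ n, T + j < n → pB n b = 0) →
      (∀ n, T + 1 < n → pC n (EB b - DB b) = 0) →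
      ∃ b' ∈ PB, (∀ n, n < 0 → pB n b' = 0) ∧ (∀ n, T < n → pB n b' = 0) ∧
        EB b' - DB b' = EB b - DB b := by
  induction j with
  | zero =>
    intro b hb h1 h2 _
    exact ⟨b, hb, h1, fun n hn => h2 n (by simpa using hn), rfl⟩
  | succ j ih =>
    intro b hb h1 h2 h3
    let m : ℤ := T + ((j : ℤ) + 1)
    have hm : m = T + ((j : ℤ) + 1) := rfl
    have e1 : pB (m + 1) b = 0 := h2 _ (by push_cast; omega)
    have e2 : EB (pB m b) = 0 := by
      have := h3 (m + 1) (by omega)
      rw [map_sub, h.hEB, h.hDB, e1, map_zero, sub_zero] at this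
      exact this
    obtain ⟨a, ha, ha2⟩ := h.exE (pB m b) (h.hPB b m hb) e2
    have hga : PA (pA (m - 1) a) := h.hPA a (m - 1) ha
    have hidB : pB m (pB m b) = pB m b := h.idemB m b
    have hE : ∀ n, pB n (EA (pA (m - 1) a)) = if n = m then pB m b else 0 := by
      intro n
      split_ifs with hn
      · rw [hn, hEA' h, h.idem, ← hEA' h, ha2, hidB]
      · rw [hEA' h, h.orth (n - 1) (m - 1) a (by omega), map_zero]
    have hD : ∀ n, n ≠ m - 1 → pB n (DA (pA (m - 1) a)) = 0 := by
      intro n hn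
      rw [h.hDA, h.orth n (m - 1) a hn, map_zero]
    have h6 := h.dd _ hga
    have h7 : EB (b - (EA (pA (m - 1) a) - DA (pA (m - 1) a))) -
        DB (b - (EA (pA (m - 1) a) - DA (pA (m - 1) a))) = EB b - DB b := by
      rw [map_sub EB b, map_sub DB b, sub_sub_sub_comm, h6, sub_zero]
    obtain ⟨b', hb', g1, g2, g3⟩ := ih (b - (EA (pA (m - 1) a) - DA (pA (m - 1) a)))
      (PB.sub_mem hb (h.hAB _ hga))
      (by
        intro n hn
        rw [map_sub, map_sub, hE n, hD n (by omega), if_neg (by omega), sub_zero, sub_zero]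
        exact h1 n hn)
      (by
        intro n hn
        rw [map_sub, map_sub, hE n, hD n (by omega), sub_zero]
        split_ifs with hnm
        · rw [hnm, sub_self]
        · rw [sub_zero]
          exact h2 n (by push_cast; omega))
      (by
        intro n hn
        rw [h7]
        exact h3 n hn)
    refine ⟨b', hb', g1, g2, ?_⟩
    rw [g3, h7]

/-- **pushing into the degrees `0, …, T`** -/
theorem push (h : Two pA pB pC PA PB EA DA EB DB) (T : ℤ) (hT : 0 ≤ T) (k : ℕ) (b : B)
    (hb : b ∈ PB) (h1 : ∀ n : ℤ, (n < -k ∨ (k : ℤ) < n) → pB n b = 0)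
    (h2 : ∀ n, (n < 0 ∨ T + 1 < n) → pC n (EB b - DB b) = 0) :
    ∃ b' ∈ PB, (∀ n, (n < 0 ∨ T < n) → pB n b' = 0) ∧ EB b' - DB b' = EB b - DB b := by
  obtain ⟨b1, hb1, g1, g2, g3⟩ := low h (T + k) (by omega) k b hb (fun n hn => h1 n (Or.inl hn))
    (fun n hn => h1 n (Or.inr (by omega))) (fun n hn => h2 n (Or.inl hn))
  obtain ⟨b2, hb2, f1, f2, f3⟩ := up h T hT k b1 hb1 g1 g2 (fun n hn => by
    rw [g3]
    exact h2 n (Or.inr hn))
  exact ⟨b2, hb2, fun n hn => hn.elim (f1 n) (f2 n), f3.trans g3⟩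

end Pool.Agent.Run7.h67.Push
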