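import Pool.Agent.Q18.HC.Stm
import Pool.Agent.Run7.h67.Push

/-!
# Exactness of the truncated complex (`PropTR` of `Pool.Agent.Q18.HC.Stm`), MP_3ca9d5_al
-/

set_option autoImplicit false

namespace Pool.Agent.Run7.h67.TR

open Pool.Agent.W326.DU Pool.Agent.Y66.HC Pool.Agent.Q18.HC Pool.Agent.Run7.h67.Push

section Basic
variable {V M : Type} [AddCommGroup M] {ad : V → V → Prop}

theorem dd2 [Fintype V] (R : V → M →+ M)
    (hR : ∀ a b, ad a b → ∀ x, R a (R b x) = R b (R a x))
    (hirr : ∀ a, ¬ ad a a) (y : V → V → M) (h1 : ∀ a b, y a b = - y b a)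
    (h2 : ∀ a b, ¬ ad a b → y a b = 0) : ∑ b, R b (∑ a, R a (y a b)) = 0 := by
  classical
  simp only [map_sum]
  rw [← Finset.sum_product' (s := Finset.univ) (t := Finset.univ)
    (f := fun b a => R b (R a (y a b)))]
  refine Finset.sum_involution (fun p _ => (p.2, p.1)) ?_ ?_ ?_ ?_
  · rintro ⟨b, a⟩ _
    dsimp only
    by_cases h : ad a b
    · rw [h1 b a, map_neg, map_neg, hR a b h, add_neg_cancel]
    · rw [h1 b a, h2 a b h]; simp
  · rintro ⟨b, a⟩ _ hne heq
    apply hne
    have : a = b := congrArg Prod.fst heq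
    subst this
    dsimp only
    rw [h2 a a (hirr a)]; simp
  · intro p _; exact Finset.mem_univ _
  · rintro ⟨a, b⟩ _; rfl

theorem twist2 (f : V → M →+ M) (hf : ∀ a b, ad a b → ∀ x, f a (f b x) = f b (f a x))
    {y : V → V → M} (hy : IsAlt2 ad Set.univ y) :
    IsAlt2 ad Set.univ (fun a b => f a (f b (y a b))) := by
  refine ⟨fun a b => ?_, fun a b h => ?_⟩
  · by_cases h : ad a b
    · show f a (f b (y a b)) = - f b (f a (y b a))
      rw [hy.1 b a, map_neg, map_neg, neg_neg, hf a b h]
    · show f a (f b (y a b)) = - f b (f a (y b a))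
      have h0 : y a b = 0 := hy.2 a b (fun h' => h h'.2.2)
      rw [hy.1 b a, h0]
      simp
  · show f a (f b (y a b)) = 0
    rw [hy.2 a b h, map_zero, map_zero]

theorem twist3 (f : V → M →+ M) (hf : ∀ a b, ad a b → ∀ x, f a (f b x) = f b (f a x))
    {z : V → V → V → M} (hz : IsAlt3 ad Set.univ z) :
    IsAlt3 ad Set.univ (fun a b c => f a (f b (f c (z a b c)))) := by
  refine ⟨fun a b c => ?_, fun a b c => ?_, fun a b c h => ?_⟩
  · show f a (f b (f c (z a b c))) = - f b (f a (f c (z b a c)))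
    by_cases h : ad a b
    · rw [hz.1 b a c, map_neg, map_neg, map_neg, neg_neg, hf a b h]
    · have h0 : z a b c = 0 := hz.2.2 a b c (fun h' => h h'.2.2.2.1)
      rw [hz.1 b a c, h0]
      simp
  · show f a (f b (f c (z a b c))) = - f a (f c (f b (z a c b)))
    by_cases h : ad b c
    · rw [hz.2.1 a c b, map_neg, map_neg, map_neg, neg_neg, hf b c h]
    · have h0 : z a b c = 0 := hz.2.2 a b c (fun h' => h h'.2.2.2.2.1)
      rw [hz.2.1 a c b, h0]
      simp
  · show f a (f b (f c (z a b c))) = 0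
    rw [hz.2.2 a b c h, map_zero, map_zero, map_zero]

end Basic

section Gr
variable {V M : Type} [AddCommGroup M] {ad : V → V → Prop} {U U' : V → M →+ M} {p : ℤ → M →+ M}

theorem inj (G : Grad ad U U' p) (v : V) {x y : M} (h : U v x = U v y) : x = y := by
  rw [← G.inv2 v x, h, G.inv2]

theorem comm' (G : Grad ad U U' p) (a b : V) (h : ad a b) (x : M) :
    U' a (U' b x) = U' b (U' a x) := by
  apply inj G a
  rw [G.inv1]
  apply inj G b
  rw [G.inv1, ← G.comm a b h, G.inv1, G.inv1]

theorem commR (G : Grad ad U U' p) (a b : V) (h : ad a b) (x : M) :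
    (U a - AddMonoidHom.id M) ((U b - AddMonoidHom.id M) x) =
      (U b - AddMonoidHom.id M) ((U a - AddMonoidHom.id M) x) := by
  simp only [AddMonoidHom.sub_apply, AddMonoidHom.id_apply, map_sub]
  rw [G.comm a b h]
  abel

variable [Fintype V]

theorem ex1 (hA : Acyc ad) (G : Grad ad U U' p) (x : V → M) (hx : ∑ v, U v (x v) = 0) :
    ∃ y : V → V → M, IsAlt2 ad Set.univ y ∧ ∀ b, x b = ∑ a, U a (y a b) := by
  obtain ⟨y, hy, h⟩ := hA.ac1 M (fun v => U v (x v)) hx
  refine ⟨_, twist2 U' (comm' G) hy, fun b => ?_⟩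
  have h1 : ∀ a, U a (U' a (U' b (y a b))) = U' b (y a b) := fun a => G.inv1 a _
  simp only [h1]
  rw [← map_sum, ← h b, G.inv2]

theorem ex2 (hA : Acyc ad) (G : Grad ad U U' p)
    (y : V → V → M) (hy : IsAlt2 ad Set.univ y)
    (h0 : ∀ b, ∑ a, U a (y a b) = 0) :
    ∃ z : V → V → V → M, IsAlt3 ad Set.univ z ∧ ∀ b c, y b c = ∑ a, U a (z a b c) := by
  have hw := twist2 U (fun a b h => G.comm a b h) hy
  obtain ⟨z, hz, h⟩ := hA.ac2 M (fun a b => U a (U b (y a b))) hw (by
    intro b
    have h1 : ∀ a, U a (U b (y a b)) = U b (U a (y a b)) := by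
      intro a
      by_cases h : ad a b
      · exact G.comm a b h _
      · rw [hy.2 a b (fun h' => h h'.2.2)]
        simp
    simp only [h1]
    rw [← map_sum, h0, map_zero])
  refine ⟨_, twist3 U' (comm' G) hz, fun b c => ?_⟩
  have h1 : ∀ a, U a (U' a (U' b (U' c (z a b c)))) = U' b (U' c (z a b c)) := fun a => G.inv1 a _
  simp only [h1]
  rw [← map_sum, ← map_sum, ← h b c]
  by_cases hbc : ad b c
  · rw [G.comm b c hbc, G.inv2, G.inv2]
  · rw [hy.2 b c (fun h' => hbc h'.2.2)]
    simp

theorem ex3 (hA : Acyc ad) (G : Grad ad U U' p)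
    (z : V → V → V → M) (hz : IsAlt3 ad Set.univ z)
    (h0 : ∀ b c, ∑ a, U a (z a b c) = 0) : ∀ a b c, z a b c = 0 := by
  have hw := twist3 U (fun a b h => G.comm a b h) hz
  have h := hA.ac3 M (fun a b c => U a (U b (U c (z a b c)))) hw (by
    intro b c
    have h1 : ∀ a, U a (U b (U c (z a b c))) = U b (U c (U a (z a b c))) := by
      intro a
      by_cases h : ad a b ∧ ad a c
      · rw [G.comm a b h.1, G.comm a c h.2]
      · rw [hz.2.2 a b c (fun h' => h ⟨h'.2.2.2.1, h'.2.2.2.2.2⟩)]
        simp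
    simp only [h1]
    rw [← map_sum, ← map_sum, h0, map_zero, map_zero])
  intro a b c
  have h1 := h a b c
  have h2 : U' c (U' b (U' a (U a (U b (U c (z a b c)))))) = 0 := by
    rw [h1, map_zero, map_zero, map_zero]
  rwa [G.inv2, G.inv2, G.inv2] at h2

/-! ### the maps -/

/-- `x ↦ ∑ f v (x v)` -/
def s1 (f : V → M →+ M) : (V → M) →+ M where
  toFun x := ∑ v, f v (x v)
  map_zero' := by simp
  map_add' x y := by simp [Finset.sum_add_distrib]

/-- `y ↦ (b ↦ ∑ f a (y a b))` -/
def s2 (f : V → M →+ M) : (V → V → M) →+ (V → M) where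
  toFun y b := ∑ a, f a (y a b)
  map_zero' := by
    funext b
    simp
  map_add' x y := by
    funext b
    simp [Finset.sum_add_distrib]

/-- `z ↦ (b c ↦ ∑ f a (z a b c))` -/
def s3 (f : V → M →+ M) : (V → V → V → M) →+ (V → V → M) where
  toFun z b c := ∑ a, f a (z a b c)
  map_zero' := by
    funext b c
    simp
  map_add' x y := by
    funext b c
    simp [Finset.sum_add_distrib]

/-- projections -/
def q1 (p : ℤ → M →+ M) (n : ℤ) : (V → M) →+ (V → M) where
  toFun x v := p n (x v)
  map_zero' := by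
    funext v
    simp
  map_add' x y := by
    funext v
    simp

/-- projections -/
def q2 (p : ℤ → M →+ M) (n : ℤ) : (V → V → M) →+ (V → V → M) where
  toFun x v w := p n (x v w)
  map_zero' := by
    funext v w
    simp
  map_add' x y := by
    funext v w
    simp

/-- projections -/
def q3 (p : ℤ → M →+ M) (n : ℤ) : (V → V → V → M) →+ (V → V → V → M) where
  toFun x u v w := p n (x u v w)
  map_zero' := by
    funext u v w
    simp
  map_add' x y := by
    funext u v w
    simp

/-- the alternating functions -/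
def alt2 (ad : V → V → Prop) (M : Type) [AddCommGroup M] : AddSubgroup (V → V → M) where
  carrier := {y | IsAlt2 ad Set.univ y}
  zero_mem' := ⟨fun a b => by simp, fun a b _ => rfl⟩
  add_mem' := by
    intro x y hx hy
    refine ⟨fun a b => ?_, fun a b h => ?_⟩
    · show x a b + y a b = - (x b a + y b a)
      rw [hx.1 a b, hy.1 a b, neg_add]
    · show x a b + y a b = 0
      rw [hx.2 a b h, hy.2 a b h, add_zero]
  neg_mem' := by
    intro x hx
    refine ⟨fun a b => ?_, fun a b h => ?_⟩
    · show - x a b = - (- x b a)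
      rw [hx.1 a b]
    · show - x a b = 0
      rw [hx.2 a b h, neg_zero]

/-- the identity maps -/
abbrev ids (V M : Type) [AddCommGroup M] : V → M →+ M := fun _ => AddMonoidHom.id M

theorem sub1 (x : V → M) : s1 U x - s1 (ids V M) x = ∑ v, (U v - AddMonoidHom.id M) (x v) := by
  simp [s1, Finset.sum_sub_distrib]

theorem sub2 (y : V → V → M) (b : V) :
    (s2 U y - s2 (ids V M) y) b = ∑ a, (U a - AddMonoidHom.id M) (y a b) := by
  simp [s2, Finset.sum_sub_distrib]

theorem sub3 (z : V → V → V → M) (b c : V) :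
    (s3 U z - s3 (ids V M) z) b c = ∑ a, (U a - AddMonoidHom.id M) (z a b c) := by
  simp [s3, Finset.sum_sub_distrib]

theorem two1 (hA : Acyc ad) (hirr : ∀ a, ¬ ad a a) (G : Grad ad U U' p) :
    Two (q2 p) (q1 p) p (IsAlt2 ad Set.univ) (⊤ : AddSubgroup (V → M)) (s2 U) (s2 (ids V M))
      (s1 U) (s1 (ids V M)) where
  idem n a := by
    funext v w
    exact G.idem n _
  idemB n a := by
    funext v
    exact G.idem n _
  orth m n a h := by
    funext v w
    exact G.orth m n _ h
  hPA y n hy := by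
    refine ⟨fun a b => ?_, fun a b h => ?_⟩
    · show p n (y a b) = - p n (y b a)
      rw [hy.1 a b, map_neg]
    · show p n (y a b) = 0
      rw [hy.2 a b h, map_zero]
  hPB _ _ _ := trivial
  hAB _ _ := trivial
  hDA n y := by
    funext b
    show p n (∑ a, y a b) = ∑ a, p n (y a b)
    rw [map_sum]
  hEA n y := by
    funext b
    show p (n + 1) (∑ a, U a (y a b)) = ∑ a, U a (p n (y a b))
    rw [map_sum]
    exact Finset.sum_congr rfl (fun a _ => G.deg a n _)
  hDB n x := by
    show p n (∑ a, x a) = ∑ a, p n (x a)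
    rw [map_sum]
  hEB n x := by
    show p (n + 1) (∑ a, U a (x a)) = ∑ a, U a (p n (x a))
    rw [map_sum]
    exact Finset.sum_congr rfl (fun a _ => G.deg a n _)
  dd y hy := by
    rw [sub1]
    have h1 := dd2 (ad := ad) (fun v => U v - AddMonoidHom.id M) (commR G) hirr y hy.1
      (fun a b h => hy.2 a b (fun h' => h h'.2.2))
    rw [← h1]
    exact Finset.sum_congr rfl (fun b _ => by rw [sub2])
  exD x _ h := by
    obtain ⟨y, hy, h1⟩ := hA.ac1 M x h
    refine ⟨y, hy, ?_⟩
    funext b
    exact (h1 b).symm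
  exE x _ h := by
    obtain ⟨y, hy, h1⟩ := ex1 hA G x h
    refine ⟨y, hy, ?_⟩
    funext b
    exact (h1 b).symm

theorem two2 (hA : Acyc ad) (hirr : ∀ a, ¬ ad a a)
    (G : Grad ad U U' p) :
    Two (q3 p) (q2 p) (q1 p) (IsAlt3 ad Set.univ) (alt2 ad M) (s3 U) (s3 (ids V M))
      (s2 U) (s2 (ids V M)) where
  idem n a := by
    funext u v w
    exact G.idem n _
  idemB n a := by
    funext v w
    exact G.idem n _
  orth m n a h := by
    funext u v w
    exact G.orth m n _ h
  hPA z n hz := by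
    refine ⟨fun a b c => ?_, fun a b c => ?_, fun a b c h => ?_⟩
    · show p n (z a b c) = - p n (z b a c)
      rw [hz.1 a b c, map_neg]
    · show p n (z a b c) = - p n (z a c b)
      rw [hz.2.1 a b c, map_neg]
    · show p n (z a b c) = 0
      rw [hz.2.2 a b c h, map_zero]
  hPB y n hy := by
    have hy' : IsAlt2 ad Set.univ y := hy
    refine ⟨fun a b => ?_, fun a b h => ?_⟩
    · show p n (y a b) = - p n (y b a)
      rw [hy'.1 a b, map_neg]
    · show p n (y a b) = 0
      rw [hy'.2 a b h, map_zero]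
  hAB z hz := by
    refine ⟨fun b c => ?_, fun b c h => ?_⟩
    · rw [sub3, sub3, ← Finset.sum_neg_distrib]
      refine Finset.sum_congr rfl (fun a _ => ?_)
      rw [hz.2.1 a b c, map_neg]
    · rw [sub3]
      refine Finset.sum_eq_zero (fun a _ => ?_)
      rw [hz.2.2 a b c (fun h' => h ⟨trivial, trivial, h'.2.2.2.2.1⟩), map_zero]
  hDA n z := by
    funext b c
    show p n (∑ a, z a b c) = ∑ a, p n (z a b c)
    rw [map_sum]
  hEA n z := by
    funext b c
    show p (n + 1) (∑ a, U a (z a b c)) = ∑ a, U a (p n (z a b c))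
    rw [map_sum]
    exact Finset.sum_congr rfl (fun a _ => G.deg a n _)
  hDB n y := by
    funext b
    show p n (∑ a, y a b) = ∑ a, p n (y a b)
    rw [map_sum]
  hEB n y := by
    funext b
    show p (n + 1) (∑ a, U a (y a b)) = ∑ a, U a (p n (y a b))
    rw [map_sum]
    exact Finset.sum_congr rfl (fun a _ => G.deg a n _)
  dd z hz := by
    funext c
    rw [sub2]
    have h1 := dd2 (ad := ad) (fun v => U v - AddMonoidHom.id M) (commR G) hirr
      (fun a b => z a b c) (fun a b => hz.1 a b c)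
      (fun a b h => hz.2.2 a b c (fun h' => h h'.2.2.2.1))
    show _ = (0 : M)
    rw [← h1]
    exact Finset.sum_congr rfl (fun b _ => by rw [sub3])
  exD y hy h := by
    obtain ⟨z, hz, h1⟩ := hA.ac2 M y hy (fun b => congrFun h b)
    refine ⟨z, hz, ?_⟩
    funext b c
    exact (h1 b c).symm
  exE y hy h := by
    obtain ⟨z, hz, h1⟩ := ex2 hA G y hy (fun b => congrFun h b)
    refine ⟨z, hz, ?_⟩
    funext b c
    exact (h1 b c).symm

theorem fin1 (G : Grad ad U U' p) (x : V → M) :
    ∃ k : ℕ, ∀ n : ℤ, (n < -k ∨ (k : ℤ) < n) → ∀ v, p n (x v) = 0 := by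
  choose kf hk using fun v => G.fin (x v)
  refine ⟨Finset.univ.sup kf, fun n hn v => hk v n ?_⟩
  have h1 : kf v ≤ Finset.univ.sup kf := Finset.le_sup (Finset.mem_univ v)
  omega

theorem fin2 (G : Grad ad U U' p) (y : V → V → M) :
    ∃ k : ℕ, ∀ n : ℤ, (n < -k ∨ (k : ℤ) < n) → ∀ v w, p n (y v w) = 0 := by
  choose kf hk using fun v => fin1 G (y v)
  refine ⟨Finset.univ.sup kf, fun n hn v => hk v n ?_⟩
  have h1 : kf v ≤ Finset.univ.sup kf := Finset.le_sup (Finset.mem_univ v)
  omega

theorem fin3 (G : Grad ad U U' p) (z : V → V → V → M) :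
    ∃ k : ℕ, ∀ n : ℤ, (n < -k ∨ (k : ℤ) < n) → ∀ u v w, p n (z u v w) = 0 := by
  choose kf hk using fun v => fin2 G (z v)
  refine ⟨Finset.univ.sup kf, fun n hn v => hk v n ?_⟩
  have h1 : kf v ≤ Finset.univ.sup kf := Finset.le_sup (Finset.mem_univ v)
  omega

end Gr

/-- **TR** -/
theorem tr : PropTR := by
  intro V M _ _ ad U U' p _ hirr hA G H1 H2
  have T1 := two1 hA hirr G
  have T2 := two2 hA hirr G
  refine ⟨?_, ?_, ?_⟩
  · intro y hy
    obtain ⟨k, hk⟩ := fin1 G y
    have e1 : ∀ y : V → M, s1 U y - s1 (ids V M) y = ∑ v, (U v (y v) - y v) := fun y => by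
      rw [sub1]
      rfl
    obtain ⟨y', _, g1, g2⟩ := push T1 1 (by norm_num) k y trivial
      (fun n hn => by
        funext v
        exact hk n hn v)
      (fun n hn => by
        rw [e1]
        exact hy n (by omega))
    refine ⟨y', fun v n hn => congrFun (g1 n (by omega)) v, ?_⟩
    rw [← e1, ← e1]
    exact g2
  · intro x hx hx0
    obtain ⟨y, hy, hxy⟩ := H1 x hx0
    obtain ⟨k, hk⟩ := fin2 G y
    have e1 : ∀ (y : V → V → M) b, (s2 U y - s2 (ids V M) y) b = ∑ a, (U a (y a b) - y a b) :=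
      fun y b => by
        rw [sub2]
        rfl
    have e2 : s2 U y - s2 (ids V M) y = x := by
      funext b
      rw [e1, hxy b]
    obtain ⟨y', hy', g1, g2⟩ := push T2 0 le_rfl k y hy
      (fun n hn => by
        funext v w
        exact hk n hn v w)
      (fun n hn => by
        rw [e2]
        funext v
        exact hx v n (by omega))
    refine ⟨y', hy', fun a b n hn => congrFun (congrFun (g1 n (by omega)) a) b, fun b => ?_⟩
    rw [← e1, g2, e2]
  · intro y hy hy0 hyb
    obtain ⟨z, hz, hyz⟩ := H2 y hy hyb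
    obtain ⟨k, hk⟩ := fin3 G z
    have hP : ∀ n : ℤ, IsAlt3 ad Set.univ (q3 p n z) := fun n => T2.hPA z n hz
    have key : ∀ n : ℤ, n ≠ 0 → ∀ b c,
        ∑ a, U a (p (n - 1) (z a b c)) = ∑ a, p n (z a b c) := by
      intro n hn b c
      have h1 := hy0 b c n (by omega)
      rw [hyz b c, map_sum] at h1
      have h2 : ∀ a, p n (U a (z a b c) - z a b c) =
          U a (p (n - 1) (z a b c)) - p n (z a b c) := by
        intro a
        rw [map_sub]
        have := G.deg a (n - 1) (z a b c)
        rw [sub_add_cancel] at this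
        rw [this]
      simp only [h2] at h1
      rw [Finset.sum_sub_distrib, sub_eq_zero] at h1
      exact h1
    have up : ∀ j : ℕ, -(k : ℤ) - 1 + j < 0 → ∀ a b c, p (-(k : ℤ) - 1 + j) (z a b c) = 0 := by
      intro j
      induction j with
      | zero =>
        intro _ a b c
        exact hk _ (by left; push_cast; omega) a b c
      | succ j ih =>
        intro hj
        have ih' := ih (by push_cast at hj; omega)
        have h1 := key (-(k : ℤ) - 1 + (j + 1 : ℕ)) (by omega)
        have e : (-(k : ℤ) - 1 + (j + 1 : ℕ)) - 1 = -(k : ℤ) - 1 + j := by push_cast; ring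
        rw [e] at h1
        exact hA.ac3 M _ (hP _) (fun b c => by
          show ∑ a, p _ (z a b c) = 0
          rw [← h1 b c]
          exact Finset.sum_eq_zero (fun a _ => by rw [ih' a b c, map_zero]))
    have down : ∀ j : ℕ, 0 ≤ (k : ℤ) + 1 - j → ∀ a b c, p ((k : ℤ) + 1 - j) (z a b c) = 0 := by
      intro j
      induction j with
      | zero =>
        intro _ a b c
        exact hk _ (by right; push_cast; omega) a b c
      | succ j ih =>
        intro hj
        have ih' := ih (by push_cast at hj; omega)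
        have h1 := key ((k : ℤ) + 1 - j) (by push_cast at hj; omega)
        have e : (k : ℤ) + 1 - j - 1 = (k : ℤ) + 1 - (j + 1 : ℕ) := by push_cast; ring
        rw [e] at h1
        exact ex3 hA G _ (hP _) (fun b c => by
          show ∑ a, U a (p _ (z a b c)) = 0
          rw [h1 b c]
          exact Finset.sum_eq_zero (fun a _ => ih' a b c))
    have hz0 : ∀ a b c, z a b c = 0 := by
      intro a b c
      apply G.ext
      intro n
      by_cases h1 : n < -(k : ℤ) ∨ (k : ℤ) < n
      · exact hk n h1 a b c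
      · rcases lt_or_ge n 0 with h2 | h2
        · obtain ⟨j, hj⟩ : ∃ j : ℕ, n = -(k : ℤ) - 1 + j :=
            ⟨(n + k + 1).toNat, by omega⟩
          rw [hj]
          exact up j (by omega) a b c
        · obtain ⟨j, hj⟩ : ∃ j : ℕ, n = (k : ℤ) + 1 - j :=
            ⟨(k + 1 - n).toNat, by omega⟩
          rw [hj]
          exact down j (by omega) a b c
    intro b c
    rw [hyz b c]
    exact Finset.sum_eq_zero (fun a _ => by rw [hz0]; simp)

end Pool.Agent.Run7.h67.TR
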